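import Pool.Agent.MP_92191b_al.G.Eng
import Pool.Agent.MP_92191b_al.K6.SecT

/-! Sections of tight relations satisfy the hypotheses of the checker. -/

set_option linter.unusedSectionVars false

namespace Pool.Agent.MP_92191b_al.G

open K6 Finset Function Equiv

variable {ι α : Type} [Fintype ι] [DecidableEq ι] [Fintype α] [DecidableEq α]

/-- The function `f` numbers the letters by `0, …, k - 1`. -/
structure En (k : ℕ) (f : ℕ → α) : Prop where
  inj : ∀ u < k, ∀ v < k, f u = f v → u = v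
  surj : ∀ a, ∃ u < k, f u = a

theorem En.eq_iff {k : ℕ} {f : ℕ → α} (h : En k f) {u v : ℕ} (hu : u < k) (hv : v < k) :
    f u = f v ↔ u = v := ⟨h.inj u hu v hv, fun e => by rw [e]⟩

theorem En.nq {k : ℕ} {f : ℕ → α} (h : En k f) {u v : ℕ} (hu : u < k) (hv : v < k) :
    nq (f u) (f v) = nq u v := by simp only [K6.nq, h.eq_iff hu hv]

theorem En.perm {k : ℕ} {f : ℕ → α} (h : En k f) (σ : Perm α) : En k fun u => σ (f u) :=
  ⟨fun u hu v hv e => h.inj u hu v hv (σ.injective e), fun a => by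
    obtain ⟨u, hu, e⟩ := h.surj (σ.symm a)
    exact ⟨u, hu, by simp [e]⟩⟩

theorem exists_En {k : ℕ} (hk : Fintype.card α = k) (h0 : 0 < k) : ∃ f : ℕ → α, En k f := by
  let e := (Fintype.equivFinOfCardEq hk).symm
  refine ⟨fun u => e ⟨u % k, Nat.mod_lt _ h0⟩, fun u hu v hv h => ?_, fun a => ?_⟩
  · have := congrArg Fin.val (e.injective h)
    simpa [Nat.mod_eq_of_lt hu, Nat.mod_eq_of_lt hv] using this
  · exact ⟨e.symm a, (e.symm a).isLt, by simp [Nat.mod_eq_of_lt (e.symm a).isLt]⟩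

theorem exists_En1 {k : ℕ} (hk : Fintype.card α = k) (a : α) : ∃ f : ℕ → α, En k f ∧ f 0 = a := by
  obtain ⟨f, hf⟩ := exists_En hk (hk ▸ Fintype.card_pos_iff.2 ⟨a⟩)
  obtain ⟨τ, h⟩ := exists_perm1 (f 0) a
  exact ⟨_, hf.perm τ, h⟩

theorem exists_En2 {k : ℕ} (hk : Fintype.card α = k) {a b : α} (hab : a ≠ b) :
    ∃ f : ℕ → α, En k f ∧ f 0 = a ∧ f 1 = b := by
  have h2 : 1 < k := hk ▸ Fintype.one_lt_card_iff.2 ⟨a, b, hab⟩
  obtain ⟨f, hf⟩ := exists_En hk (by omega)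
  obtain ⟨τ, h⟩ := exists_perm2 (a := f 0) (b := f 1)
    (fun e => absurd (hf.inj 0 (by omega) 1 h2 e) (by omega)) hab
  exact ⟨_, hf.perm τ, h⟩

theorem exists_En3 {k : ℕ} (hk : Fintype.card α = k) (h3 : 2 < k) {a b c : α} (hab : a ≠ b)
    (hac : a ≠ c) (hbc : b ≠ c) : ∃ f : ℕ → α, En k f ∧ f 0 = a ∧ f 1 = b ∧ f 2 = c := by
  obtain ⟨f, hf⟩ := exists_En hk (by omega)
  obtain ⟨τ, h⟩ := exists_perm3 (a := f 0) (b := f 1) (c := f 2)
    (fun e => absurd (hf.inj 0 (by omega) 1 (by omega) e) (by omega))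
    (fun e => absurd (hf.inj 0 (by omega) 2 h3 e) (by omega))
    (fun e => absurd (hf.inj 1 (by omega) 2 h3 e) (by omega)) hab hac hbc
  exact ⟨_, hf.perm τ, h⟩

theorem exists_rho {k : ℕ} {f g : ℕ → α} (hf : En k f) (hg : En k g) {s : ℕ → ℕ}
    (h1 : ∀ v < k, s v < k) (h2 : ∀ u < k, ∀ v < k, s u = s v → u = v) :
    ∃ ρ : Perm α, ∀ v < k, ρ (g v) = f (s v) := by
  choose u hu hu' using hg.surj
  have hi : Injective fun a => f (s (u a)) := fun a b e => by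
    rw [← hu' a, ← hu' b, h2 _ (hu a) _ (hu b) (hf.inj _ (h1 _ (hu a)) _ (h1 _ (hu b)) e)]
  refine ⟨Equiv.ofBijective _ (Finite.injective_iff_bijective.1 hi), fun v hv => ?_⟩
  rw [Equiv.ofBijective_apply, hg.inj _ (hu _) _ hv (hu' _)]

/-- The coordinates and the numberings of the letters that define a section. -/
structure Fr (k n : ℕ) (e : ℕ → ι) (ec ed : ℕ → ℕ → α) : Prop where
  inj : ∀ u < n, ∀ v < n, e u = e v → u = v
  c : ∀ l < n, En k (ec l)
  d : ∀ l < n, En k (ed l)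

/-- The cell `x` codes the pair `c, d`. -/
def Cd (k n : ℕ) (e : ℕ → ι) (ec ed : ℕ → ℕ → α) (c d : ι → α) (x : ℕ) : Prop :=
  ∀ l < n, c (e l) = ec l (dg k l x) ∧ d (e l) = ed l (dg k (n + l) x)

def WT (k n : ℕ) (T : Rel2 ι α) (σ : ι → Perm α) (e : ℕ → ι) (ec ed : ℕ → ℕ → α) (x : ℕ) : Prop :=
  ∃ c d, T c d ∧ (∀ r, (∀ l < n, r ≠ e l) → c r = σ r (d r)) ∧ Cd k n e ec ed c d x

variable {k n : ℕ} {T : Rel2 ι α} {σ : ι → Perm α} {e : ℕ → ι} {ec ed : ℕ → ℕ → α}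

theorem Fr.code (h : Fr k n e ec ed) (c d : ι → α) : ∃ x < k ^ (2 * n), Cd k n e ec ed c d x := by
  choose! u hu hu' using fun l (hl : l < n) => (h.c l hl).surj (c (e l))
  choose! v hv hv' using fun l (hl : l < n) => (h.d l hl).surj (d (e l))
  have hf : ∀ j < 2 * n, (if j < n then u j else v (j - n)) < k := fun j hj => by
    split_ifs with h1
    · exact hu j h1
    · exact hv _ (by omega)
  refine ⟨_, enc_lt _ hf, fun l hl => ?_⟩
  rw [dg_enc _ hf l (by omega), dg_enc _ hf (n + l) (by omega), if_pos hl, if_neg (by omega),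
    Nat.add_sub_cancel_left, hu' l hl, hv' l hl]
  exact ⟨rfl, rfl⟩

theorem Fr.hyp (h : Fr k n e ec ed) (hk : 0 < k) (hT : Tight T) (σ : ι → Perm α) :
    Hyp k n (WT k n T σ e ec ed) where
  sep := by
    rintro x hx y hy ⟨c, d, t, o, q⟩ ⟨c', d', t', o', q'⟩ he
    have hi : Set.InjOn e (range n : Finset ℕ) := fun u hu v hv =>
      h.inj u (by simpa using hu) v (by simpa using hv)
    have out : ∀ r, r ∉ (range n).image e → ∀ l < n, r ≠ e l := fun r hr l hl e' =>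
      hr (mem_image.2 ⟨l, mem_range.2 hl, e'.symm⟩)
    obtain ⟨rfl, rfl⟩ := hT.sep _ _ _ _ t t' (SecT.ham_eq ((range n).image e) σ
      (fun r hr => o r (out r hr)) (fun r hr => o' r (out r hr)) (by
        rw [sum_image hi, sum_image hi]
        refine (sum_congr rfl fun l hl => ?_).trans (he.trans (sum_congr rfl fun l hl => ?_))
        · rw [(q l (mem_range.1 hl)).1, (q' l (mem_range.1 hl)).1,
            (h.c l (mem_range.1 hl)).nq (dg_lt hk _ _) (dg_lt hk _ _)]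
        · rw [(q l (mem_range.1 hl)).2, (q' l (mem_range.1 hl)).2,
            (h.d l (mem_range.1 hl)).nq (dg_lt hk _ _) (dg_lt hk _ _)]))
    refine dg_ext _ _ _ hx hy fun j hj => ?_
    by_cases h1 : j < n
    · exact (h.c j h1).inj _ (dg_lt hk _ _) _ (dg_lt hk _ _) ((q j h1).1.symm.trans (q' j h1).1)
    · obtain ⟨l, rfl⟩ := Nat.exists_eq_add_of_le (Nat.le_of_not_lt h1)
      have hl : l < n := by omega
      exact (h.d l hl).inj _ (dg_lt hk _ _) _ (dg_lt hk _ _) ((q l hl).2.symm.trans (q' l hl).2)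
  cov π s h1 h2 h3 h4 := by
    classical
    choose! ρ hρ using fun l (hl : l < n) =>
      exists_rho (h.c l hl) (h.d _ (h1 l hl)) (h3 l hl) (h4 l hl)
    have ix : ∀ r, ∃ l, (∃ l' < n, r = e l') → l < n ∧ r = e l := fun r => by
      by_cases hr : ∃ l' < n, r = e l'
      · obtain ⟨l, hl⟩ := hr
        exact ⟨l, fun _ => hl⟩
      · exact ⟨0, fun h' => absurd h' hr⟩
    choose ix hix using ix
    have ixe : ∀ l < n, ix (e l) = l := fun l hl =>
      h.inj _ (hix _ ⟨l, hl, rfl⟩).1 _ hl (hix _ ⟨l, hl, rfl⟩).2.symm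
    let p : ι → ι := fun r => if ∃ l' < n, r = e l' then e (π (ix r)) else r
    have pe : ∀ l < n, p (e l) = e (π l) := fun l hl => by
      simp only [p]
      rw [if_pos ⟨l, hl, rfl⟩, ixe l hl]
    have po : ∀ r, (¬∃ l' < n, r = e l') → p r = r := fun r hr => if_neg hr
    have hp : Injective p := by
      intro r r' hr
      by_cases a : ∃ l' < n, r = e l' <;> by_cases b : ∃ l' < n, r' = e l'
      · obtain ⟨l, hl, rfl⟩ := a
        obtain ⟨l', hl', rfl⟩ := b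
        rw [pe l hl, pe l' hl'] at hr
        rw [h2 l hl l' hl' (h.inj _ (h1 l hl) _ (h1 l' hl') hr)]
      · obtain ⟨l, hl, rfl⟩ := a
        rw [pe l hl, po r' b] at hr
        exact absurd ⟨_, h1 l hl, hr.symm⟩ b
      · obtain ⟨l, hl, rfl⟩ := b
        rw [pe l hl, po r a] at hr
        exact absurd ⟨_, h1 l hl, hr⟩ a
      · rwa [po r a, po r' b] at hr
    obtain ⟨c, d, t, m⟩ := hT.ex (fun r => if ∃ l' < n, r = e l' then ρ (ix r) else σ r)
      (Equiv.ofBijective p (Finite.injective_iff_bijective.1 hp))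
    simp only [Equiv.ofBijective_apply] at m
    obtain ⟨x, hx, q⟩ := h.code c d
    refine ⟨x, hx, ⟨c, d, t, fun r hr => ?_, q⟩, fun l hl => ?_⟩
    · have hn : ¬∃ l' < n, r = e l' := fun ⟨l, hl, e'⟩ => hr l hl e'
      rw [m r, if_neg hn, po r hn]
    · refine (h.c l hl).inj _ (dg_lt hk _ _) _ (h3 l hl _ (dg_lt hk _ _)) ?_
      rw [← (q l hl).1, m, if_pos ⟨l, hl, rfl⟩, ixe l hl, pe l hl, (q _ (h1 l hl)).2,
        hρ l hl _ (dg_lt hk _ _)]

/-- The pair `c, d` lies in the class `D`. -/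
def In (k n : ℕ) (e : ℕ → ι) (ec ed : ℕ → ℕ → α) (c d : ι → α) (D : ℕ) : Prop :=
  ∀ l < n, (fr k D l = true ∧ c (e l) = ec l (sc D l / k) ∧
      d (e (pp D l)) = ed (pp D l) (sc D l % k)) ∨
    (fr k D l = false ∧ ∀ v < k, d (e (pp D l)) = ed (pp D l) v → c (e l) = ec l (sg k D l v))

/-- Some pair of the section lies in the class `D`. -/
def Inh (k n : ℕ) (T : Rel2 ι α) (σ : ι → Perm α) (e : ℕ → ι) (ec ed : ℕ → ℕ → α) (D : ℕ) : Prop :=
  ∃ c d, T c d ∧ (∀ r, (∀ l < n, r ≠ e l) → c r = σ r (d r)) ∧ In k n e ec ed c d D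

/-- The main interface: after a successful run, if all classes of `L` are inhabited then all
classes of some member of `ng` are inhabited. -/
theorem Fr.run (h : Fr k n e ec ed) (hk : 0 < k) (hn : n ≤ 7) (hT : Tight T) (σ : ι → Perm α)
    {ng : List (List ℕ)} {t : Tr} {L : List ℕ} (hr : run k n ng t L = true)
    (hL : ∀ D ∈ L, Inh k n T σ e ec ed D) : ∃ c ∈ ng, ∀ D ∈ c, Inh k n T σ e ec ed D := by
  have hr' := Bool.and_eq_true_iff.1 (Bool.and_eq_true_iff.1 hr).1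
  obtain ⟨g, hg, hp⟩ := run_sound hk hn hr (h.hyp hk hT σ) fun D hD => by
    obtain ⟨c, d, w, o, m⟩ := hL D hD
    have oD := ok_of (List.all_eq_true.1 hr'.1 D hD)
    obtain ⟨x, hx, q⟩ := h.code c d
    refine ⟨x, hx, ⟨c, d, w, o, q⟩, fun l hl => ?_⟩
    have hp := oD.lt l hl
    rcases m l hl with ⟨f, m1, m2⟩ | ⟨f, m1⟩
    · exact Or.inl ⟨f, (h.c l hl).inj _ (dg_lt hk _ _) _ (fr_lt f).1 ((q l hl).1.symm.trans m1),
        (h.d _ hp).inj _ (dg_lt hk _ _) _ (fr_lt f).2 ((q _ hp).2.symm.trans m2)⟩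
    · exact Or.inr ⟨f, (h.c l hl).inj _ (dg_lt hk _ _) _ (sg_lt hk _ _ _)
        ((q l hl).1.symm.trans (m1 _ (dg_lt hk _ _) (q _ hp).2))⟩
  refine ⟨g, hg, fun D hD => ?_⟩
  obtain ⟨x, -, ⟨c, d, w, o, q⟩, m⟩ := hp D hD
  have oD := ok_of (List.all_eq_true.1 (List.all_eq_true.1 hr'.2 g hg) D hD)
  refine ⟨c, d, w, o, fun l hl => ?_⟩
  have hp := oD.lt l hl
  rcases m l hl with ⟨f, m1, m2⟩ | ⟨f, m1⟩
  · exact Or.inl ⟨f, by rw [(q l hl).1, m1], by rw [(q _ hp).2, m2]⟩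
  · refine Or.inr ⟨f, fun v hv hd => ?_⟩
    rw [(q l hl).1, m1, (h.d _ hp).inj _ (dg_lt hk _ _) _ hv ((q _ hp).2.symm.trans hd)]

theorem Fr.refute (h : Fr k n e ec ed) (hk : 0 < k) (hn : n ≤ 7) (hT : Tight T) (σ : ι → Perm α)
    {t : Tr} {L : List ℕ} (hr : G.run k n [] t L = true)
    (hL : ∀ D ∈ L, Inh k n T σ e ec ed D) : False := by
  obtain ⟨c, hc, -⟩ := h.run hk hn hT σ hr hL
  exact absurd hc List.not_mem_nil

end Pool.Agent.MP_92191b_al.G
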