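import Pool.Agent.MP_92191b_al.G.Mask

/-! A checker for finite refutations about sections in `n` coordinates over `k` letters.
A class of cells is coded by a number with one digit in base `4096` per coordinate `l`: the digit
`512 p + s` pairs coordinate `l` of the first word with coordinate `p` of the second word; if
`s = k a + b < k ^ 2` the two letters are `a` and `b`, otherwise they are tied by the permutation
with code `s - k ^ 2`. -/

namespace Pool.Agent.MP_92191b_al.G

open K6 Finset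

def pp (D l : ℕ) : ℕ := D / 4096 ^ l % 4096 / 512
def sc (D l : ℕ) : ℕ := D / 4096 ^ l % 512
def fr (k D l : ℕ) : Bool := Nat.blt (sc D l) (k * k)
def sg (k D l v : ℕ) : ℕ := dg k v (sc D l - k * k)

theorem sg_lt {k : ℕ} (hk : 0 < k) (D l v : ℕ) : sg k D l v < k := dg_lt hk _ _

def Ent (k n D x l : ℕ) : Prop :=
  (fr k D l = true ∧ dg k l x = sc D l / k ∧ dg k (n + pp D l) x = sc D l % k) ∨
    (fr k D l = false ∧ dg k l x = sg k D l (dg k (n + pp D l) x))

def Mem (k n D x : ℕ) : Prop := ∀ l < n, Ent k n D x l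

def injB (f : ℕ → ℕ) (m : ℕ) : Bool :=
  allLt (fun u => allLt (fun v => Nat.beq u v || !Nat.beq (f u) (f v)) m) m

theorem injB_spec {f : ℕ → ℕ} {m : ℕ} (h : injB f m = true) :
    ∀ u < m, ∀ v < m, f u = f v → u = v := by
  intro u hu v hv e
  have := (allLt_iff _ _).1 ((allLt_iff _ _).1 h u hu) v hv
  rw [e] at this
  simpa using this

def okD (k n D : ℕ) : Bool :=
  allLt (fun l => Nat.blt (pp D l) n && (fr k D l || injB (sg k D l) k)) n && injB (pp D) n

structure Ok (k n D : ℕ) : Prop where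
  lt : ∀ l < n, pp D l < n
  inj : ∀ u < n, ∀ v < n, pp D u = pp D v → u = v
  sg : ∀ l < n, fr k D l = false → ∀ u < k, ∀ v < k, sg k D l u = sg k D l v → u = v

theorem ok_of {k n D : ℕ} (h : okD k n D = true) : Ok k n D := by
  obtain ⟨h1, h2⟩ := Bool.and_eq_true_iff.1 h
  rw [allLt_iff] at h1
  refine ⟨fun l hl => ?_, injB_spec h2, fun l hl hf => injB_spec ?_⟩
  · simpa using (Bool.and_eq_true_iff.1 (h1 l hl)).1
  · simpa [hf] using (Bool.and_eq_true_iff.1 (h1 l hl)).2

theorem fr_lt {k D l : ℕ} (h : fr k D l = true) : sc D l / k < k ∧ sc D l % k < k := by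
  have h1 : sc D l < k * k := by simpa [fr] using h
  have hk : 0 < k := Nat.pos_of_ne_zero (by rintro rfl; omega)
  exact ⟨Nat.div_lt_of_lt_mul h1, Nat.mod_lt _ hk⟩

def entM (k n D l : ℕ) : ℕ :=
  cond (fr k D l) (EE k n l (sc D l / k) &&& EE k n (n + pp D l) (sc D l % k))
    (orLt (fun v => EE k n (n + pp D l) v &&& EE k n l (sg k D l v)) k)

theorem tb_entM {k n D l x : ℕ} (hk : 0 < k) (hD : Ok k n D) (hl : l < n)
    (hx : x < k ^ (2 * n)) : (entM k n D l).testBit x = true ↔ Ent k n D x l := by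
  have hp := hD.lt l hl
  unfold entM Ent
  cases h : fr k D l
  · simp only [cond_false, tb_orLt, Nat.testBit_and, EE_eq, Bool.and_eq_true, true_and,
      Bool.false_eq_true, false_and, false_or]
    constructor
    · rintro ⟨v, hv, h1, h2⟩
      rw [tb_E (by omega) hv hx, decide_eq_true_iff] at h1
      rw [tb_E (by omega) (sg_lt hk _ _ _) hx, decide_eq_true_iff] at h2
      rw [h1, h2]
    · intro e
      refine ⟨_, dg_lt hk (n + pp D l) x, ?_, ?_⟩
      · rw [tb_E (j := n + pp D l) (by omega) (dg_lt hk _ _) hx, decide_eq_true_iff]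
      · rw [tb_E (j := l) (by omega) (sg_lt hk _ _ _) hx, decide_eq_true_iff]
        exact e
  · simp only [cond_true, Nat.testBit_and, EE_eq, Bool.and_eq_true, true_and,
      Bool.true_eq_false, false_and, or_false, tb_E (by omega : l < 2 * n) (fr_lt h).1 hx,
      tb_E (by omega : n + pp D l < 2 * n) (fr_lt h).2 hx, decide_eq_true_iff]

def memM (k n D : ℕ) : ℕ := andLt (ful k n) (entM k n D) n

theorem tb_memM {k n D x : ℕ} (hk : 0 < k) (hD : Ok k n D) (hx : x < k ^ (2 * n)) :
    (memM k n D).testBit x = true ↔ Mem k n D x := by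
  rw [memM, tb_andLt (tb_ful hx)]
  exact forall₂_congr fun l hl => tb_entM hk hD hl hx

def kill (k n D : ℕ) : ℕ :=
  andLt (ful k n) (fun l => cond (fr k D l) (ful k n) (entM k n D l)) n &&&
    agree (ful k n)
      (cnts (fun l => cond (fr k D l) (ful k n ^^^ EE k n l (sc D l / k)) 0) n)
      (cnts (fun l => cond (fr k D l) (ful k n ^^^ EE k n (n + pp D l) (sc D l % k)) 0) n)

structure Hyp (k n : ℕ) (W : ℕ → Prop) : Prop where
  sep : ∀ x < k ^ (2 * n), ∀ y < k ^ (2 * n), W x → W y →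
    ∑ l ∈ range n, nq (dg k l x) (dg k l y) =
      ∑ l ∈ range n, nq (dg k (n + l) x) (dg k (n + l) y) → x = y
  cov : ∀ (π : ℕ → ℕ) (s : ℕ → ℕ → ℕ), (∀ l < n, π l < n) →
    (∀ u < n, ∀ v < n, π u = π v → u = v) → (∀ l < n, ∀ v < k, s l v < k) →
    (∀ l < n, ∀ u < k, ∀ v < k, s l u = s l v → u = v) →
    ∃ x < k ^ (2 * n), W x ∧ ∀ l < n, dg k l x = s l (dg k (n + π l) x)

theorem sum_perm {n : ℕ} {π : ℕ → ℕ} (h1 : ∀ l < n, π l < n)
    (h2 : ∀ u < n, ∀ v < n, π u = π v → u = v) (f : ℕ → ℕ) :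
    ∑ l ∈ range n, f (π l) = ∑ l ∈ range n, f l := by
  have hi : Set.InjOn π (range n : Finset ℕ) := fun u hu v hv =>
    h2 u (by simpa using hu) v (by simpa using hv)
  have : (range n).image π = range n := by
    refine eq_of_subset_of_card_le (fun y hy => ?_) (by rw [card_image_of_injOn hi])
    obtain ⟨u, hu, rfl⟩ := mem_image.1 hy
    exact mem_range.2 (h1 u (mem_range.1 hu))
  rw [← sum_image hi, this]

theorem toNat_ne {u e x a b : ℕ} (hu : u.testBit x = true) (he : e.testBit x = decide (a = b)) :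
    ((u ^^^ e).testBit x).toNat = nq b a := by
  rw [Nat.testBit_xor, hu, he, nq]
  by_cases h : a = b
  · simp [h]
  · simp [h, Ne.symm h]

theorem kill_spec {k n D x y : ℕ} {W : ℕ → Prop} (hk : 0 < k) (hn : n ≤ 7) (H : Hyp k n W)
    (hD : Ok k n D) (hx : x < k ^ (2 * n)) (hy : y < k ^ (2 * n)) (wx : W x) (wy : W y)
    (my : Mem k n D y) (h : (kill k n D).testBit x = true) : False := by
  rw [kill, Nat.testBit_and, Bool.and_eq_true, tb_andLt (tb_ful hx)] at h
  obtain ⟨hf, ha⟩ := h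
  obtain ⟨h1, h2⟩ := tb_agree (tb_ful hx) ha
  rw [(val_cnts _ x n hn).1] at h2
  rw [(val_cnts _ x n hn).1, (val_cnts _ x n hn).1] at h1
  have key : ∀ l < n, ∃ t, nq (dg k l y) (dg k l x) =
      ((cond (fr k D l) (ful k n ^^^ EE k n l (sc D l / k)) 0).testBit x).toNat + t ∧
      nq (dg k (n + pp D l) y) (dg k (n + pp D l) x) =
      ((cond (fr k D l) (ful k n ^^^ EE k n (n + pp D l) (sc D l % k)) 0).testBit x).toNat + t := by
    intro l hl
    have hp := hD.lt l hl
    rcases my l hl with ⟨e, e1, e2⟩ | ⟨e, e1⟩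
    · refine ⟨0, ?_, ?_⟩
      · rw [e, cond_true, EE_eq, toNat_ne (tb_ful hx) (tb_E (by omega) (fr_lt e).1 hx), e1,
          add_zero]
      · rw [e, cond_true, EE_eq, toNat_ne (tb_ful hx) (tb_E (by omega) (fr_lt e).2 hx), e2,
          add_zero]
    · have g := hf l hl
      rw [e, cond_false, tb_entM hk hD hl hx] at g
      rcases g with ⟨e', -⟩ | ⟨-, e2⟩
      · rw [e] at e'
        exact absurd e' (by decide)
      refine ⟨nq (dg k (n + pp D l) y) (dg k (n + pp D l) x), ?_, ?_⟩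
      · rw [e, cond_false, Nat.zero_testBit, e1, e2, Bool.toNat_false, zero_add, nq, nq]
        refine if_congr ⟨hD.sg l hl e _ (dg_lt hk _ _) _ (dg_lt hk _ _), fun h => by rw [h]⟩
          rfl rfl
      · rw [e, cond_false, Nat.zero_testBit, Bool.toNat_false, zero_add]
  choose! t ht using key
  have e1 := sum_congr rfl fun l (hl : l ∈ range n) => (ht l (mem_range.1 hl)).1
  have e2 := sum_congr rfl fun l (hl : l ∈ range n) => (ht l (mem_range.1 hl)).2
  rw [sum_add_distrib] at e1 e2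
  rw [sum_perm hD.lt hD.inj fun l => nq (dg k (n + l) y) (dg k (n + l) x)] at e2
  have e := H.sep y hy x hx wy wx (by omega)
  subst e
  simp only [nq_self, sum_const_zero] at e1
  omega

/-! ### Renaming letters -/

def gs (k g j v : ℕ) : ℕ := dg k v (dg (k ^ k) j g)

def okG (k n g : ℕ) : Bool :=
  allLt (fun j => allLt (fun v => Nat.beq (gs k g j (gs k g j v)) v) k) (2 * n)

def act (k n g x : ℕ) : ℕ := enc k (fun j => gs k g j (dg k j x)) (2 * n)

theorem gs_lt {k : ℕ} (hk : 0 < k) (g j v : ℕ) : gs k g j v < k := dg_lt hk _ _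

theorem act_lt {k : ℕ} (hk : 0 < k) (n g x : ℕ) : act k n g x < k ^ (2 * n) :=
  enc_lt _ fun _ _ => gs_lt hk _ _ _

theorem dg_act {k n j : ℕ} (hk : 0 < k) (g x : ℕ) (hj : j < 2 * n) :
    dg k j (act k n g x) = gs k g j (dg k j x) :=
  dg_enc (f := fun j => gs k g j (dg k j x)) _ (fun _ _ => gs_lt hk _ _ _) j hj

theorem gs_gs {k n g j v : ℕ} (h : okG k n g = true) (hj : j < 2 * n) (hv : v < k) :
    gs k g j (gs k g j v) = v :=
  Nat.eq_of_beq_eq_true ((allLt_iff _ _).1 ((allLt_iff _ _).1 h j hj) v hv)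

theorem gs_inj {k n g j u v : ℕ} (h : okG k n g = true) (hj : j < 2 * n) (hu : u < k) (hv : v < k)
    (e : gs k g j u = gs k g j v) : u = v := by
  rw [← gs_gs h hj hu, e, gs_gs h hj hv]

theorem act_act {k n g x : ℕ} (hk : 0 < k) (h : okG k n g = true) (hx : x < k ^ (2 * n)) :
    act k n g (act k n g x) = x :=
  dg_ext _ _ _ (act_lt hk _ _ _) hx fun j hj => by
    rw [dg_act hk _ _ hj, dg_act hk _ _ hj, gs_gs h hj (dg_lt hk _ _)]

theorem Hyp.act {k n g : ℕ} {W : ℕ → Prop} (hk : 0 < k) (h : okG k n g = true) (H : Hyp k n W) :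
    Hyp k n fun x => W (act k n g x) where
  sep x hx y hy wx wy e := by
    have key : ∀ j < 2 * n, nq (dg k j (G.act k n g x)) (dg k j (G.act k n g y)) =
        nq (dg k j x) (dg k j y) := fun j hj => by
      rw [dg_act hk _ _ hj, dg_act hk _ _ hj, nq, nq]
      exact if_congr ⟨gs_inj h hj (dg_lt hk _ _) (dg_lt hk _ _), fun h => by rw [h]⟩ rfl rfl
    have := H.sep _ (act_lt hk _ _ _) _ (act_lt hk _ _ _) wx wy (by
      rw [sum_congr rfl fun l hl => key l (by have := mem_range.1 hl; omega),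
        sum_congr rfl fun l hl => key (n + l) (by have := mem_range.1 hl; omega), e])
    rw [← act_act hk h hx, this, act_act hk h hy]
  cov π s h1 h2 h3 h4 := by
    obtain ⟨x, hx, wx, e⟩ := H.cov π (fun l v => gs k g l (s l (gs k g (n + π l) v))) h1 h2
      (fun _ _ _ _ => gs_lt hk _ _ _) fun l hl u hu v hv e =>
        gs_inj h (by have := h1 l hl; omega) hu hv (h4 l hl _ (gs_lt hk _ _ _) _ (gs_lt hk _ _ _)
          (gs_inj h (by omega) (h3 l hl _ (gs_lt hk _ _ _)) (h3 l hl _ (gs_lt hk _ _ _)) e))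
    refine ⟨_, act_lt hk n g x, by rwa [act_act hk h hx], fun l hl => ?_⟩
    rw [dg_act hk _ _ (by omega), dg_act hk _ _ (by have := h1 l hl; omega), e l hl,
      gs_gs h (by omega) (h3 l hl _ (gs_lt hk _ _ _))]

def actD (k n g D : ℕ) : ℕ :=
  enc 4096 (fun l => pp D l * 512 + cond (fr k D l)
    (gs k g l (sc D l / k) * k + gs k g (n + pp D l) (sc D l % k))
    (k * k + enc k (fun v => gs k g l (sg k D l (gs k g (n + pp D l) v))) k)) n

def img (k n g D D' : ℕ) : Bool :=
  allLt (fun l => Nat.blt (pp D l) n && Nat.beq (pp D' l) (pp D l) && cond (fr k D l)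
    (fr k D' l && Nat.beq (sc D' l / k) (gs k g l (sc D l / k)) &&
      Nat.beq (sc D' l % k) (gs k g (n + pp D l) (sc D l % k)))
    (!fr k D' l && allLt (fun v =>
      Nat.beq (sg k D' l v) (gs k g l (sg k D l (gs k g (n + pp D l) v)))) k)) n

theorem img_spec {k n g D D' x : ℕ} (hk : 0 < k) (h : okG k n g = true)
    (hi : img k n g D D' = true) (m : Mem k n D' x) : Mem k n D (act k n g x) := by
  intro l hl
  have h1 := (allLt_iff _ _).1 hi l hl
  simp only [Bool.and_eq_true] at h1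
  obtain ⟨⟨hp, e⟩, h2⟩ := h1
  replace hp : pp D l < n := by simpa using hp
  replace e := Nat.eq_of_beq_eq_true e
  have ml := m l hl
  unfold Ent at ml ⊢
  rw [dg_act hk _ _ (by omega), dg_act hk _ _ (by omega)]
  rw [e] at ml
  cases hf : fr k D l
  · rw [hf, cond_false, Bool.and_eq_true, Bool.not_eq_true', allLt_iff] at h2
    rcases ml with ⟨e', -⟩ | ⟨-, e1⟩
    · rw [h2.1] at e'
      exact absurd e' (by decide)
    refine Or.inr ⟨rfl, ?_⟩
    rw [e1, Nat.eq_of_beq_eq_true (h2.2 _ (dg_lt hk _ _)), gs_gs h (by omega) (sg_lt hk _ _ _)]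
  · rw [hf, cond_true, Bool.and_eq_true, Bool.and_eq_true] at h2
    rcases ml with ⟨-, e1, e2⟩ | ⟨e', -⟩
    · refine Or.inl ⟨rfl, ?_, ?_⟩
      · rw [e1, Nat.eq_of_beq_eq_true h2.1.2, gs_gs h (by omega) (fr_lt hf).1]
      · rw [e2, Nat.eq_of_beq_eq_true h2.2, gs_gs h (by omega) (fr_lt hf).2]
    · rw [h2.1.1] at e'
      exact absurd e' (by decide)

/-! ### The checker -/

/-- Every class of the list contains a cell of `W`. -/
def Pos (k n : ℕ) (W : ℕ → Prop) (l : List ℕ) : Prop :=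
  ∀ D ∈ l, ∃ x < k ^ (2 * n), W x ∧ Mem k n D x

/-- The hypotheses together with a family of excluded lists of classes. -/
def Cls (k n : ℕ) (ng : List (List ℕ)) (W : ℕ → Prop) : Prop :=
  Hyp k n W ∧ ∀ c ∈ ng, ¬Pos k n W c

def Dead (k n : ℕ) (ng : List (List ℕ)) (l : List ℕ) (e : ℕ) : Prop :=
  ∀ x < k ^ (2 * n), e.testBit x = true → ∀ W, Cls k n ng W → Pos k n W l → ¬W x

inductive Tr where
  | L (D : ℕ) : Tr
  | N (i : ℕ) : Tr
  | S (D : ℕ) (t u : Tr) : Tr
  | Y (g D : ℕ) (t : Tr) : Tr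

def stab (k n g : ℕ) (l : List ℕ) : Bool :=
  l.all fun f => frb (actD k n g f) fun f' => l.any (Nat.beq f') && img k n g f f'

def stabN (k n g : ℕ) (ng : List (List ℕ)) : Bool :=
  ng.all fun c => ng.any fun c' => c'.all fun f' => c.any fun f =>
    Nat.beq (actD k n g f) f' && img k n g f' f

def chk (k n : ℕ) (ng : List (List ℕ)) : Tr → List ℕ → ℕ → Bool
  | .L D, l, e => okD k n D && (allLt (fun i => !fr k D i) n || l.any (Nat.beq D)) &&
      Nat.beq (memM k n D ||| e) e
  | .N i, l, _ => Nat.blt i ng.length && (ng.getD i []).all fun D => l.any (Nat.beq D)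
  | .S D t u, l, e => okD k n D && frb (e ||| kill k n D) (fun e' => chk k n ng t (D :: l) e') &&
      frb (e ||| memM k n D) fun e' => chk k n ng u l e'
  | .Y g D t, l, e => okG k n g && okD k n D && Nat.beq (memM k n D ||| e) e && stab k n g l &&
      stabN k n g ng && frb (actD k n g D) fun D' => okD k n D' && img k n g D D' &&
        frb (e ||| memM k n D') fun e' => chk k n ng t l e'

theorem mem_any {l : List ℕ} {D : ℕ} (h : l.any (Nat.beq D) = true) : D ∈ l := by
  obtain ⟨x, hx, h1⟩ := List.any_eq_true.1 h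
  rwa [Nat.eq_of_beq_eq_true h1]

theorem sub_of {m e x : ℕ} (h : Nat.beq (m ||| e) e = true) (hx : m.testBit x = true) :
    e.testBit x = true := by
  rw [← Nat.eq_of_beq_eq_true h, Nat.testBit_or, hx, Bool.true_or]

theorem Cls.act {k n g : ℕ} {ng : List (List ℕ)} {W : ℕ → Prop} (hk : 0 < k)
    (h : okG k n g = true) (hs : stabN k n g ng = true) (H : Cls k n ng W) :
    Cls k n ng fun x => W (act k n g x) := by
  refine ⟨H.1.act hk h, fun c hc hp => ?_⟩
  obtain ⟨c', hc', h1⟩ := List.any_eq_true.1 (List.all_eq_true.1 hs c hc)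
  refine H.2 c' hc' fun f' hf' => ?_
  obtain ⟨f, hf, h2⟩ := List.any_eq_true.1 (List.all_eq_true.1 h1 f' hf')
  obtain ⟨x, -, wx, mx⟩ := hp f hf
  exact ⟨_, act_lt hk n g x, wx, img_spec hk h (Bool.and_eq_true_iff.1 h2).2 mx⟩

theorem sound {k n : ℕ} (hk : 0 < k) (hn : n ≤ 7) (ng : List (List ℕ)) (t : Tr) :
    ∀ (l : List ℕ) (e : ℕ), Dead k n ng l e → chk k n ng t l e = true →
      ∀ W, Cls k n ng W → Pos k n W l → False := by
  induction t with
  | L D =>
    intro l e he h W H hW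
    simp only [chk, Bool.and_eq_true, Bool.or_eq_true] at h
    obtain ⟨⟨hD, h1⟩, h2⟩ := h
    have oD := ok_of hD
    obtain ⟨x, hx, wx, mx⟩ : ∃ x < k ^ (2 * n), W x ∧ Mem k n D x := by
      rcases h1 with h1 | h1
      · have hf : ∀ i < n, fr k D i = false := fun i hi => by
          simpa using (allLt_iff _ _).1 h1 i hi
        obtain ⟨x, hx, wx, mx⟩ := H.1.cov (pp D) (sg k D) oD.lt oD.inj
          (fun _ _ _ _ => dg_lt hk _ _) fun i hi => oD.sg i hi (hf i hi)
        exact ⟨x, hx, wx, fun i hi => Or.inr ⟨hf i hi, mx i hi⟩⟩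
      · exact hW D (mem_any h1)
    exact he x hx (sub_of h2 ((tb_memM hk oD hx).2 mx)) W H hW wx
  | N i =>
    intro l e _ h W H hW
    simp only [chk, Bool.and_eq_true] at h
    have hi : i < ng.length := by simpa using h.1
    refine H.2 (ng.getD i []) ?_ fun D hD => hW D (mem_any (List.all_eq_true.1 h.2 D hD))
    rw [List.getD_eq_getElem _ _ hi]
    exact List.getElem_mem hi
  | S D t u it iu =>
    intro l e he h
    simp only [chk, Bool.and_eq_true, frb_eq] at h
    obtain ⟨⟨hD, ht⟩, hu⟩ := h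
    have oD := ok_of hD
    refine iu l _ (fun x hx hb W H hW wx => ?_) hu
    rw [Nat.testBit_or, Bool.or_eq_true] at hb
    rcases hb with hb | hb
    · exact he x hx hb W H hW wx
    refine it (D :: l) _ (fun y hy hb' W' H' hW' wy => ?_) ht W H fun f hf => ?_
    · rw [Nat.testBit_or, Bool.or_eq_true] at hb'
      rcases hb' with hb' | hb'
      · exact he y hy hb' W' H' (fun f hf => hW' f (List.mem_cons_of_mem _ hf)) wy
      · obtain ⟨z, hz, wz, mz⟩ := hW' D List.mem_cons_self
        exact kill_spec hk hn H'.1 oD hy hz wy wz mz hb'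
    · rcases List.mem_cons.1 hf with rfl | hf
      · exact ⟨x, hx, wx, (tb_memM hk oD hx).1 hb⟩
      · exact hW f hf
  | Y g D t it =>
    intro l e he h
    simp only [chk, Bool.and_eq_true, frb_eq] at h
    obtain ⟨⟨⟨⟨⟨hg, hD⟩, hm⟩, hs⟩, hN⟩, ⟨hD', hi⟩, ht⟩ := h
    refine it l _ (fun x hx hb W H hW wx => ?_) ht
    rw [Nat.testBit_or, Bool.or_eq_true] at hb
    rcases hb with hb | hb
    · exact he x hx hb W H hW wx
    have lx := act_lt hk n g x
    refine he _ lx (sub_of hm ((tb_memM hk (ok_of hD) lx).2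
      (img_spec hk hg hi ((tb_memM hk (ok_of hD') hx).1 hb)))) _ (H.act hk hg hN)
      (fun f hf => ?_) (by rwa [act_act hk hg hx])
    have h1 := List.all_eq_true.1 hs f hf
    rw [frb_eq, Bool.and_eq_true] at h1
    obtain ⟨y, hy, wy, my⟩ := hW _ (mem_any h1.1)
    exact ⟨_, act_lt hk n g y, by rwa [act_act hk hg hy], img_spec hk hg h1.2 my⟩

def kills (k n : ℕ) : List ℕ → ℕ
  | [] => 0
  | D :: l => kill k n D ||| kills k n l

def run (k n : ℕ) (ng : List (List ℕ)) (t : Tr) (l : List ℕ) : Bool :=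
  l.all (okD k n) && ng.all (fun c => c.all (okD k n)) &&
    frb (kills k n l) fun e => chk k n ng t l e

theorem dead_kills {k n : ℕ} (hk : 0 < k) (hn : n ≤ 7) (ng : List (List ℕ)) (l : List ℕ)
    (h : l.all (okD k n) = true) : Dead k n ng l (kills k n l) := by
  induction l with
  | nil => intro x _ hb; simp [kills] at hb
  | cons D l ih =>
    rw [List.all_cons, Bool.and_eq_true] at h
    intro x hx hb W H hW wx
    rw [kills, Nat.testBit_or, Bool.or_eq_true] at hb
    rcases hb with hb | hb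
    · obtain ⟨z, hz, wz, mz⟩ := hW D List.mem_cons_self
      exact kill_spec hk hn H.1 (ok_of h.1) hx hz wx wz mz hb
    · exact ih h.2 x hx hb W H (fun f hf => hW f (List.mem_cons_of_mem _ hf)) wx

theorem run_sound {k n : ℕ} (hk : 0 < k) (hn : n ≤ 7) {ng : List (List ℕ)} {t : Tr} {l : List ℕ}
    (h : run k n ng t l = true) {W : ℕ → Prop} (H : Hyp k n W) (hW : Pos k n W l) :
    ∃ c ∈ ng, Pos k n W c := by
  by_contra! hc
  rw [run, Bool.and_eq_true, Bool.and_eq_true, frb_eq] at h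
  exact sound hk hn ng t l _ (dead_kills hk hn ng l h.1.1) h.2 W ⟨H, hc⟩ hW

end Pool.Agent.MP_92191b_al.G
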