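import Pool.Agent.MP_92191b_al.G.Bridge
import Pool.Agent.MP_92191b_al.G.M8c
import Pool.Agent.MP_92191b_al.K5.M8five

/-! Two facts on sections over four letters. -/

set_option linter.unusedSectionVars false

namespace Pool.Agent.MP_92191b_al.G

open K6 Finset Function Equiv

variable {ι α : Type} [Fintype ι] [DecidableEq ι] [Fintype α] [DecidableEq α]

/-- Coordinate `l` of the class `D` has the fixed letters `a` and `b`. -/
def Fx (k D l a b : ℕ) : Prop :=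
  pp D l = l ∧ fr k D l = true ∧ sc D l / k = a ∧ sc D l % k = b

/-- Coordinate `l` of the class `D` is tied by the identity. -/
def Idm (k D l : ℕ) : Prop := pp D l = l ∧ fr k D l = false ∧ ∀ v < k, sg k D l v = v

instance (k D l a b : ℕ) : Decidable (Fx k D l a b) := by unfold Fx; infer_instance
instance (k D l : ℕ) : Decidable (Idm k D l) := by unfold Idm; infer_instance

def InE (k : ℕ) (e : ℕ → ι) (ec ed : ℕ → ℕ → α) (c d : ι → α) (D l : ℕ) : Prop :=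
  (fr k D l = true ∧ c (e l) = ec l (sc D l / k) ∧ d (e (pp D l)) = ed (pp D l) (sc D l % k)) ∨
    (fr k D l = false ∧ ∀ v < k, d (e (pp D l)) = ed (pp D l) v → c (e l) = ec l (sg k D l v))

theorem Fx.inE {k D l a b : ℕ} {e : ℕ → ι} {ec ed : ℕ → ℕ → α} {c d : ι → α} (h : Fx k D l a b)
    (h1 : c (e l) = ec l a) (h2 : d (e l) = ed l b) : InE k e ec ed c d D l :=
  Or.inl ⟨h.2.1, by rw [h.2.2.1, h1], by rw [h.1, h.2.2.2, h2]⟩

theorem Idm.inE {k D l : ℕ} {e : ℕ → ι} {ec ed : ℕ → ℕ → α} {c d : ι → α} (h : Idm k D l)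
    (h1 : ∀ v, d (e l) = ed l v → c (e l) = ec l v) : InE k e ec ed c d D l :=
  Or.inr ⟨h.2.1, fun v hv e => by rw [h.2.2 v hv]; exact h1 v (by rwa [h.1] at e)⟩

theorem exists_En4 (hk : Fintype.card α = 4) {a b c d : α} (hab : a ≠ b) (hac : a ≠ c)
    (hbc : b ≠ c) (had : a ≠ d) (hbd : b ≠ d) (hcd : c ≠ d) :
    ∃ f : ℕ → α, En 4 f ∧ f 0 = a ∧ f 1 = b ∧ f 2 = c ∧ f 3 = d := by
  obtain ⟨f, hf, h0, h1, h2⟩ := exists_En3 hk (by norm_num) hab hac hbc
  obtain ⟨u, hu, e⟩ := hf.surj d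
  refine ⟨f, hf, h0, h1, h2, ?_⟩
  interval_cases u
  · exact absurd (h0.symm.trans e) had
  · exact absurd (h1.symm.trans e) hbd
  · exact absurd (h2.symm.trans e) hcd
  · exact e

/-- A sequence with given first terms. -/
def sq {β : Type} (a b c d : β) : ℕ → β
  | 0 => a
  | 1 => b
  | 2 => c
  | _ => d

theorem Fr.mk3 {k : ℕ} {i j r : ι} (hij : i ≠ j) (hri : r ≠ i) (hrj : r ≠ j)
    {f1 f2 f3 g1 g2 g3 : ℕ → α} (a1 : En k f1) (a2 : En k f2) (a3 : En k f3) (b1 : En k g1)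
    (b2 : En k g2) (b3 : En k g3) : Fr k 3 (sq i j r r) (sq f1 f2 f3 f3) (sq g1 g2 g3 g3) where
  inj u hu v hv h := by
    interval_cases u <;> interval_cases v <;>
      first | rfl | exact absurd h (by assumption) | exact absurd h.symm (by assumption)
  c l hl := by interval_cases l <;> assumption
  d l hl := by interval_cases l <;> assumption

theorem Fr.mk4 {k : ℕ} {i j r s : ι} (hij : i ≠ j) (hri : r ≠ i) (hrj : r ≠ j) (hsi : s ≠ i)
    (hsj : s ≠ j) (hsr : s ≠ r) {f1 f2 f3 f4 g1 g2 g3 g4 : ℕ → α} (a1 : En k f1) (a2 : En k f2)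
    (a3 : En k f3) (a4 : En k f4) (b1 : En k g1) (b2 : En k g2) (b3 : En k g3) (b4 : En k g4) :
    Fr k 4 (sq i j r s) (sq f1 f2 f3 f4) (sq g1 g2 g3 g4) where
  inj u hu v hv h := by
    interval_cases u <;> interval_cases v <;>
      first | rfl | exact absurd h (by assumption) | exact absurd h.symm (by assumption)
  c l hl := by interval_cases l <;> assumption
  d l hl := by interval_cases l <;> assumption

def Hb (D a b d e : ℕ) : Prop := Fx 4 D 0 a d ∧ Fx 4 D 1 b e ∧ Idm 4 D 3 ∧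
  ((Idm 4 D 2 ∧ K5.isH a b d e = true) ∨
    (a = 0 ∧ b = 0 ∧ d = 0 ∧ ((e = 1 ∧ Fx 4 D 2 0 0) ∨ (e = 2 ∧ Fx 4 D 2 1 1))))

instance (D a b d e : ℕ) : Decidable (Hb D a b d e) := by unfold Hb; infer_instance

theorem m8l_spec : ∀ D ∈ m8l, ∃ a < 4, ∃ b < 4, ∃ d < 4, ∃ e < 4, Hb D a b d e := by
  decide +kernel

/-- A hybrid plane is monochrome if there are at least four coordinates. -/
theorem m8four (hk : Fintype.card α = 4) {T : Rel2 ι α} (hT : Tight T) {σ : ι → Perm α}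
    {i j r s : ι} (hij : i ≠ j) (hri : r ≠ i) (hrj : r ≠ j) (hsi : s ≠ i) (hsj : s ≠ j)
    (hsr : s ≠ r) {a0 a1 x0 x1 y1 y2 : α} (h8 : Is8 (pl T σ i j) a0 a1 x0 x1 y1 y2)
    {c d c' d' : ι → α} (hc : Cell T σ i j c d) (hc' : Cell T σ i j c' d') (e1 : c i = a0)
    (e2 : c j = x0) (e1' : c' i = a0) (e2' : c' j = x0) (k1 : d i = y1) (k1' : d' i = y1)
    (n1 : d j ≠ y2) (n2 : d' j ≠ y2) (n3 : d j ≠ d' j) : d r = d' r := by
  by_contra hne
  obtain ⟨f1, a1', p1, p1'⟩ := exists_En2 hk h8.1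
  obtain ⟨f2, a2, p2, p2'⟩ := exists_En2 hk h8.2.1
  obtain ⟨g1, b1, q1⟩ := exists_En1 hk y1
  obtain ⟨g2, b2, q2, q2', q2''⟩ := exists_En3 hk (by norm_num) n1.symm n2.symm n3
  obtain ⟨g3, b3, q3, q3'⟩ := exists_En2 hk hne
  obtain ⟨g4, b4, -⟩ := exists_En1 hk y1
  refine (Fr.mk4 hij hri hrj hsi hsj hsr a1' a2 (b3.perm (σ r)) (b4.perm (σ s)) b1 b2 b3 b4).refute
    (by norm_num) (by norm_num) hT σ m8c fun D hD => ?_
  obtain ⟨a, ha, b, hb, u, hu, v, hv, x0', x1', x3, hx⟩ := m8l_spec D hD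
  have fin : ∀ c d, Cell T σ i j c d → c i = f1 a → c j = f2 b → d i = g1 u → d j = g2 v →
      InE 4 (sq i j r s) (sq f1 f2 (fun u => σ r (g3 u)) fun u => σ s (g4 u)) (sq g1 g2 g3 g4)
        c d D 2 →
      Inh 4 4 T σ (sq i j r s) (sq f1 f2 (fun u => σ r (g3 u)) fun u => σ s (g4 u))
        (sq g1 g2 g3 g4) D := by
    intro c d h h1 h2 h3 h4 h5
    refine ⟨c, d, h.1, fun t ht => h.2 t (ht 0 (by norm_num)) (ht 1 (by norm_num)), fun l hl => ?_⟩
    interval_cases l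
    · exact x0'.inE h1 h3
    · exact x1'.inE h2 h4
    · exact h5
    · exact x3.inE fun w hw => (h.2 s hsi hsj).trans (congrArg _ hw)
  rcases hx with ⟨x2, hH⟩ | ⟨rfl, rfl, rfl, ⟨rfl, x2⟩ | ⟨rfl, x2⟩⟩
  · have : pl T σ i j (f1 a) (f2 b) (g1 u) (g2 v) := by
      rw [h8.2.2, ← p1, ← p1', ← p2, ← p2', ← q1, ← q2]
      rw [K5.isH_iff] at hH
      simpa only [ne_eq, a1'.eq_iff ha (by norm_num : 0 < 4), a1'.eq_iff ha (by norm_num : 1 < 4),
        a2.eq_iff hb (by norm_num : 0 < 4), a2.eq_iff hb (by norm_num : 1 < 4),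
        b1.eq_iff hu (by norm_num : 0 < 4), b2.eq_iff hv (by norm_num : 0 < 4)] using hH
    obtain ⟨c, d, h, h1, h2, h3, h4⟩ := this
    exact fin c d h h1 h2 h3 h4 (x2.inE fun w hw => (h.2 r hri hrj).trans (congrArg _ hw))
  · exact fin c d hc (e1.trans p1.symm) (e2.trans p2.symm) (k1.trans q1.symm) q2'.symm
      (x2.inE ((hc.2 r hri hrj).trans (congrArg _ q3.symm)) q3.symm)
  · exact fin c' d' hc' (e1'.trans p1.symm) (e2'.trans p2.symm) (k1'.trans q1.symm) q2''.symm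
      (x2.inE ((hc'.2 r hri hrj).trans (congrArg _ q3'.symm)) q3'.symm)

/-- The class of the cell in row `a` and column `b` of a diagonal plane with colour `w`. -/
def gc (a b w : ℕ) : ℕ := (a * 4 + b) + 4096 * (512 + b) + 4096 ^ 2 * (1024 + 5 * w)

theorem gc_spec : ∀ a < 4, ∀ b < 4, ∀ w < 4,
    Fx 4 (gc a b w) 0 a b ∧ Fx 4 (gc a b w) 1 0 b ∧ Fx 4 (gc a b w) 2 w w := by decide +kernel

theorem gA : run 4 3 []
    (.S 17181970433 (.S 17249136655 (.L 21226274877) (.L 21226262742)) (.S 17400098822 (.L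
    18759323709) (.L 12638437602)))
    [gc 0 0 1, gc 1 1 0, gc 2 2 0, gc 3 3 0, gc 3 2 1, gc 2 3 1] = true := by decide +kernel

theorem gB1 : run 4 3 []
    (.L 21226275042)
    [gc 0 0 1, gc 1 1 0, gc 2 2 0, gc 3 3 0, gc 3 2 2, gc 2 3 3, gc 2 0 0, gc 3 0 0] = true := by
  decide +kernel

theorem gB2 : run 4 3 []
    (.S 17249136653 (.L 21075280068) (.L 19816878126))
    [gc 0 0 1, gc 1 1 0, gc 2 2 0, gc 3 3 0, gc 3 2 2, gc 2 3 3, gc 2 0 0, gc 0 3 0] = true := by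
  decide +kernel

theorem gB3 : run 4 3 []
    (.S 17249132553 (.L 21075280116) (.L 18407002203))
    [gc 0 0 1, gc 1 1 0, gc 2 2 0, gc 3 3 0, gc 3 2 2, gc 2 3 3, gc 0 2 0, gc 3 0 0] = true := by
  decide +kernel

theorem gB4 : run 4 3 []
    (.L 20420956356)
    [gc 0 0 1, gc 1 1 0, gc 2 2 0, gc 3 3 0, gc 3 2 2, gc 2 3 3, gc 0 2 0, gc 0 3 0] = true := by
  decide +kernel

/-- Colour patterns that do not occur on a diagonal plane over four letters. -/
def Step (φ : α → α → α) : Prop :=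
  ∀ (f g : ℕ → α) (μ ν : α), En 4 f → En 4 g → μ ≠ ν → φ (f 0) (g 0) = ν → φ (f 1) (g 1) = μ →
    φ (f 2) (g 2) = μ → φ (f 3) (g 3) = μ →
    ¬(φ (f 3) (g 2) = ν ∧ φ (f 2) (g 3) = ν) ∧
    ¬(μ ≠ φ (f 3) (g 2) ∧ ν ≠ φ (f 3) (g 2) ∧ μ ≠ φ (f 2) (g 3) ∧ ν ≠ φ (f 2) (g 3) ∧
      φ (f 3) (g 2) ≠ φ (f 2) (g 3) ∧ (φ (f 2) (g 0) = μ ∨ φ (f 0) (g 2) = μ) ∧
      (φ (f 3) (g 0) = μ ∨ φ (f 0) (g 3) = μ))

theorem step4 (hk : Fintype.card α = 4) {T : Rel2 ι α} (hT : Tight T) {σ : ι → Perm α}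
    {i j r : ι} (hij : i ≠ j) (hri : r ≠ i) (hrj : r ≠ j) {τ : Perm α} {x : α}
    {c d : α → α → ι → α} (h : ∀ a b, Cell T σ i j (c a b) (d a b) ∧ c a b i = a ∧ c a b j = x ∧
      d a b i = τ b ∧ d a b j = b) : Step fun a b => d a b r := by
  intro f g μ ν hf hg hμ e0 e1 e2 e3
  obtain ⟨f2, a2, p2⟩ := exists_En1 hk x
  have key : ∀ u : ℕ → α, En 4 u → ∀ {t L}, run 4 3 [] t L = true →
      (∀ D ∈ L, ∃ a < 4, ∃ b < 4, ∃ w < 4, D = gc a b w ∧ d (f a) (g b) r = u w) → False := by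
    intro u hu t L hr hL
    refine (Fr.mk3 hij hri hrj hf a2 (hu.perm (σ r)) (hg.perm τ) hg hu).refute (by norm_num)
      (by norm_num) hT σ hr fun D hD => ?_
    obtain ⟨a, ha, b, hb, w, hw, rfl, e⟩ := hL D hD
    obtain ⟨s0, s1, s2⟩ := gc_spec a ha b hb w hw
    obtain ⟨h0, h1, h2, h3, h4⟩ := h (f a) (g b)
    refine ⟨_, _, h0.1, fun t ht => h0.2 t (ht 0 (by norm_num)) (ht 1 (by norm_num)),
      fun l hl => ?_⟩
    interval_cases l
    · exact s0.inE h1 h3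
    · exact s1.inE (h2.trans p2.symm) h4
    · exact s2.inE ((h0.2 r hri hrj).trans (congrArg _ e)) e
  refine ⟨fun ⟨e4, e5⟩ => ?_, fun ⟨n1, n2, n3, n4, n5, o1, o2⟩ => ?_⟩
  · obtain ⟨u, hu, u0, u1⟩ := exists_En2 hk hμ
    subst u0 u1
    refine key u hu gA ?_
    simp only [List.forall_mem_cons, List.not_mem_nil, false_imp_iff, implies_true, and_true]
    refine ⟨?_, ?_, ?_, ?_, ?_, ?_⟩ <;>
      exact ⟨_, by norm_num, _, by norm_num, _, by norm_num, rfl, by assumption⟩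
  · obtain ⟨u, hu, u0, u1, u2, u3⟩ := exists_En4 hk hμ n1 n2 n3 n4 n5
    subst u0 u1
    replace u2 := u2.symm
    replace u3 := u3.symm
    rcases o1 with o1 | o1 <;> rcases o2 with o2 | o2
    all_goals
      first
        | refine key u hu gB1 ?_
          simp only [List.forall_mem_cons, List.not_mem_nil, false_imp_iff, implies_true, and_true]
          refine ⟨?_, ?_, ?_, ?_, ?_, ?_, ?_, ?_⟩ <;>
            exact ⟨_, by norm_num, _, by norm_num, _, by norm_num, rfl, by assumption⟩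
        | refine key u hu gB2 ?_
          simp only [List.forall_mem_cons, List.not_mem_nil, false_imp_iff, implies_true, and_true]
          refine ⟨?_, ?_, ?_, ?_, ?_, ?_, ?_, ?_⟩ <;>
            exact ⟨_, by norm_num, _, by norm_num, _, by norm_num, rfl, by assumption⟩
        | refine key u hu gB3 ?_
          simp only [List.forall_mem_cons, List.not_mem_nil, false_imp_iff, implies_true, and_true]
          refine ⟨?_, ?_, ?_, ?_, ?_, ?_, ?_, ?_⟩ <;>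
            exact ⟨_, by norm_num, _, by norm_num, _, by norm_num, rfl, by assumption⟩
        | refine key u hu gB4 ?_
          simp only [List.forall_mem_cons, List.not_mem_nil, false_imp_iff, implies_true, and_true]
          refine ⟨?_, ?_, ?_, ?_, ?_, ?_, ?_, ?_⟩ <;>
            exact ⟨_, by norm_num, _, by norm_num, _, by norm_num, rfl, by assumption⟩

end Pool.Agent.MP_92191b_al.G
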