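import Pool.Agent.MP_92191b_al.K6.Basic

/-! Bit masks for sets of cells of a section in `n` coordinates over `k` letters.  A cell is a
number below `k ^ (2 n)`; its first `n` digits form the first word, the others the second. -/

namespace Pool.Agent.MP_92191b_al.G

open K6 Finset

def dg (k j x : ℕ) : ℕ := x / k ^ j % k

theorem dg_lt {k : ℕ} (hk : 0 < k) (j x : ℕ) : dg k j x < k := Nat.mod_lt _ hk

def enc (k : ℕ) (f : ℕ → ℕ) : ℕ → ℕ
  | 0 => 0
  | m + 1 => enc k f m + f m * k ^ m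

theorem enc_lt {k : ℕ} {f : ℕ → ℕ} (m : ℕ) (hf : ∀ j < m, f j < k) : enc k f m < k ^ m := by
  induction m with
  | zero => simp [enc]
  | succ m ih =>
    have h1 := ih fun j hj => hf j (by omega)
    have h2 : (f m + 1) * k ^ m ≤ k * k ^ m := Nat.mul_le_mul_right _ (hf m (by omega))
    rw [enc, pow_succ']
    rw [Nat.succ_mul] at h2
    omega

theorem dg_add {k j m : ℕ} (hk : 0 < k) (hj : j < m) (y c : ℕ) :
    dg k j (y + c * k ^ m) = dg k j y := by
  obtain ⟨t, rfl⟩ := Nat.exists_eq_add_of_lt hj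
  have : c * k ^ (j + t + 1) = k ^ j * (k * (c * k ^ t)) := by ring
  rw [dg, dg, this, Nat.add_mul_div_left _ _ (Nat.pow_pos hk), Nat.add_mul_mod_self_left]

theorem dg_enc {k : ℕ} {f : ℕ → ℕ} (m : ℕ) (hf : ∀ j < m, f j < k) :
    ∀ j < m, dg k j (enc k f m) = f j := by
  induction m with
  | zero => intro j hj; omega
  | succ m ih =>
    intro j hj
    have hm := hf m (by omega)
    have hk : 0 < k := by omega
    rw [enc]
    rcases Nat.lt_succ_iff_lt_or_eq.1 hj with h | rfl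
    · rw [dg_add hk h, ih (fun j hj => hf j (by omega)) j h]
    · rw [dg, Nat.add_mul_div_right _ _ (Nat.pow_pos hk),
        Nat.div_eq_of_lt (enc_lt j fun i hi => hf i (by omega)), zero_add, Nat.mod_eq_of_lt hm]

theorem dg_ext {k : ℕ} (m : ℕ) : ∀ x y, x < k ^ m → y < k ^ m →
    (∀ j < m, dg k j x = dg k j y) → x = y := by
  induction m with
  | zero => intro x y hx hy _; simp at hx hy; omega
  | succ m ih =>
    intro x y hx hy h
    have h0 := h 0 (by omega)
    simp only [dg, pow_zero, Nat.div_one] at h0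
    have h1 := ih (x / k) (y / k) (Nat.div_lt_of_lt_mul (by rwa [pow_succ'] at hx))
      (Nat.div_lt_of_lt_mul (by rwa [pow_succ'] at hy)) fun j hj => by
        have := h (j + 1) (by omega)
        rwa [dg, dg, pow_succ', ← Nat.div_div_eq_div_mul, ← Nat.div_div_eq_div_mul] at this
    rw [← Nat.div_add_mod x k, ← Nat.div_add_mod y k, h0, h1]

/-- The number with the bits `0, w, 2 w, …`. -/
def rp (w : ℕ) : ℕ → ℕ
  | 0 => 0
  | n + 1 => 2 ^ w * rp w n + 1

theorem tb_rp {w κ : ℕ} (hκ : κ < 2 ^ w) (n : ℕ) : ∀ y, y < w * n →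
    (κ * rp w n).testBit y = κ.testBit (y % w) := by
  induction n with
  | zero => intro y hy; omega
  | succ n ih =>
    intro y hy
    have : κ * rp w (n + 1) = 2 ^ w * (κ * rp w n) + κ := by rw [rp]; ring
    rw [this, Nat.testBit_two_pow_mul_add _ hκ]
    split_ifs with h
    · rw [Nat.mod_eq_of_lt h]
    · rw [ih (y - w) (by rw [Nat.mul_succ] at hy; omega), ← Nat.mod_eq_sub_mod (by omega)]

theorem rp_mul (w n : ℕ) : (2 ^ w - 1) * rp w n + 1 = 2 ^ (w * n) := by
  obtain ⟨q, hq⟩ : ∃ q, 2 ^ w = q + 1 := ⟨2 ^ w - 1, by have := Nat.two_pow_pos w; omega⟩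
  induction n with
  | zero => simp [rp]
  | succ n ih =>
    rw [Nat.mul_succ, pow_add, ← ih, rp, hq, Nat.add_sub_cancel]
    ring

theorem rp_eq {w : ℕ} (hw : 0 < w) (n : ℕ) : (2 ^ (w * n) - 1) / (2 ^ w - 1) = rp w n := by
  rw [← rp_mul, Nat.add_sub_cancel, Nat.mul_div_cancel_left]
  have := Nat.one_lt_two_pow (n := w) (by omega)
  omega

def blk (w v : ℕ) : ℕ := (2 ^ w - 1) <<< (w * v)

theorem tb_blk (w v y : ℕ) : (blk w v).testBit y = decide (w * v ≤ y ∧ y - w * v < w) := by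
  rw [blk, Nat.testBit_shiftLeft, Nat.testBit_two_pow_sub_one, Bool.decide_and]

theorem blk_lt {k w v : ℕ} (hv : v < k) : blk w v < 2 ^ (w * k) := by
  refine Nat.lt_pow_two_of_testBit _ fun i hi => ?_
  rw [tb_blk, decide_eq_false_iff_not]
  rintro ⟨h1, h2⟩
  have : w * (v + 1) ≤ w * k := Nat.mul_le_mul_left w hv
  rw [Nat.mul_succ] at this
  omega

def ful (k n : ℕ) : ℕ := 2 ^ k ^ (2 * n) - 1

theorem tb_ful {k n x : ℕ} (hx : x < k ^ (2 * n)) : (ful k n).testBit x = true := by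
  rw [ful, Nat.testBit_two_pow_sub_one]
  exact decide_eq_true hx

/-- The cells whose digit `j` equals `v`. -/
def E (k n j v : ℕ) : ℕ := blk (k ^ j) v * (ful k n / (2 ^ (k ^ j * k) - 1))

theorem tb_E {k n j v x : ℕ} (hj : j < 2 * n) (hv : v < k) (hx : x < k ^ (2 * n)) :
    (E k n j v).testBit x = decide (dg k j x = v) := by
  have hk : 0 < k := by omega
  have hw : 0 < k ^ j := Nat.pow_pos hk
  obtain ⟨t, ht⟩ := Nat.exists_eq_add_of_lt hj
  have e : k ^ (2 * n) = k ^ j * k * k ^ t := by rw [ht]; ring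
  rw [E, ful, e, rp_eq (Nat.mul_pos hw hk), tb_rp (blk_lt hv) _ x (e ▸ hx), tb_blk,
    decide_eq_decide, dg, ← Nat.mod_mul_right_div_self, Nat.div_eq_iff hw, Nat.mul_comm v]
  omega

def frc (x : ℕ) (f : ℕ → ℕ) : ℕ := Nat.rec (f 0) (fun n _ => f (n + 1)) x

theorem frc_eq (x : ℕ) (f : ℕ → ℕ) : frc x f = f x := by cases x <;> rfl

def frb (x : ℕ) (f : ℕ → Bool) : Bool := Nat.rec (f 0) (fun n _ => f (n + 1)) x

theorem frb_eq (x : ℕ) (f : ℕ → Bool) : frb x f = f x := by cases x <;> rfl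

def EE (k n j v : ℕ) : ℕ := frc j fun j => frc v fun v => E k n j v

theorem EE_eq (k n j v : ℕ) : EE k n j v = E k n j v := by rw [EE, frc_eq, frc_eq]

def allLt (f : ℕ → Bool) : ℕ → Bool
  | 0 => true
  | m + 1 => f m && allLt f m

theorem allLt_iff (f : ℕ → Bool) (m : ℕ) : allLt f m = true ↔ ∀ i < m, f i = true := by
  induction m with
  | zero => simp [allLt]
  | succ m ih =>
    rw [allLt, Bool.and_eq_true, ih, Nat.forall_lt_succ_right]
    exact and_comm

def orLt (f : ℕ → ℕ) : ℕ → ℕ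
  | 0 => 0
  | m + 1 => f m ||| orLt f m

theorem tb_orLt (f : ℕ → ℕ) (x m : ℕ) :
    (orLt f m).testBit x = true ↔ ∃ i < m, (f i).testBit x = true := by
  induction m with
  | zero => simp [orLt]
  | succ m ih =>
    rw [orLt, Nat.testBit_or, Bool.or_eq_true, ih, Nat.exists_lt_succ_right]
    exact or_comm

def andLt (u : ℕ) (f : ℕ → ℕ) : ℕ → ℕ
  | 0 => u
  | m + 1 => f m &&& andLt u f m

theorem tb_andLt {u x : ℕ} (hu : u.testBit x = true) (f : ℕ → ℕ) (m : ℕ) :
    (andLt u f m).testBit x = true ↔ ∀ i < m, (f i).testBit x = true := by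
  induction m with
  | zero => simp [andLt, hu]
  | succ m ih =>
    rw [andLt, Nat.testBit_and, Bool.and_eq_true, ih, Nat.forall_lt_succ_right]
    exact and_comm

/-- A counter with three binary digits for every cell. -/
structure T3 where
  a : ℕ
  b : ℕ
  c : ℕ

def T3.inc (t : T3) (x : ℕ) : T3 :=
  ⟨t.a ^^^ x, t.b ^^^ (t.a &&& x), t.c ^^^ (t.b &&& (t.a &&& x))⟩

def T3.val (t : T3) (x : ℕ) : ℕ :=
  (t.a.testBit x).toNat + 2 * (t.b.testBit x).toNat + 4 * (t.c.testBit x).toNat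

def cnts (f : ℕ → ℕ) : ℕ → T3
  | 0 => ⟨0, 0, 0⟩
  | m + 1 => (cnts f m).inc (f m)

theorem val_cnts (f : ℕ → ℕ) (x m : ℕ) (hm : m ≤ 7) :
    (cnts f m).val x = ∑ i ∈ range m, ((f i).testBit x).toNat ∧ (cnts f m).val x ≤ m := by
  induction m with
  | zero => simp [cnts, T3.val]
  | succ m ih =>
    obtain ⟨h1, h2⟩ := ih (by omega)
    rw [sum_range_succ, ← h1, cnts]
    generalize cnts f m = t at h2 ⊢
    simp only [T3.val, T3.inc, Nat.testBit_xor, Nat.testBit_and] at h2 ⊢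
    revert h2
    cases t.a.testBit x <;> cases t.b.testBit x <;> cases t.c.testBit x <;>
      cases (f m).testBit x <;> simp <;> omega

/-- The cells on which two counters agree and are not zero. -/
def agree (u : ℕ) (s t : T3) : ℕ :=
  (u ^^^ ((s.a ^^^ t.a) ||| (s.b ^^^ t.b) ||| (s.c ^^^ t.c))) &&& (s.a ||| s.b ||| s.c)

theorem tb_agree {u x : ℕ} (hu : u.testBit x = true) {s t : T3}
    (h : (agree u s t).testBit x = true) : s.val x = t.val x ∧ s.val x ≠ 0 := by
  simp only [agree, T3.val, Nat.testBit_xor, Nat.testBit_and, Nat.testBit_or, hu] at h ⊢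
  revert h
  cases s.a.testBit x <;> cases s.b.testBit x <;> cases s.c.testBit x <;>
    cases t.a.testBit x <;> cases t.b.testBit x <;> cases t.c.testBit x <;> simp

end Pool.Agent.MP_92191b_al.G
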